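import Mathlib

/-!
# Half-trees and their pointwise stabilisers in an amalgamated free product
-/

set_option autoImplicit false

open Monoid Monoid.PushoutI

universe u

namespace Pool.Agent.Helper52.Amalgam

variable {G : Bool → Type u} [∀ i, Group (G i)] {H : Type u} [Group H] (φ : ∀ i, H →* G i)

/-- `StartsWith φ i g`: the element `g` of the amalgam has a reduced expression
`g = x₁ x₂ ⋯ xₙ` (`n ≥ 1`, the letters lie alternately in the two factors and outside the
amalgamated subgroup) whose first letter `x₁` lies in the factor `G i`. -/
inductive StartsWith : Bool → PushoutI φ → Prop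
  | single (i : Bool) (x : G i) (hx : x ∉ (φ i).range) : StartsWith i (of i x)
  | cons (i : Bool) (x : G i) (hx : x ∉ (φ i).range) (g : PushoutI φ)
      (hg : StartsWith (!i) g) : StartsWith i (of i x * g)

/-- The elements `c` of the amalgamated subgroup `C` such that `g⁻¹ c g ∈ C` for every `g` which
starts with a letter of `G i`. In the Bass-Serre tree these are the elements which fix the base
edge and fix pointwise the half-tree on the side of the vertex `G i`. -/
def HalfFix (i : Bool) : Set (PushoutI φ) :=
  {c | c ∈ (base φ).range ∧ ∀ g, StartsWith φ i g → g⁻¹ * c * g ∈ (base φ).range}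

/-- The normal subgroup of the amalgam generated by all pointwise stabilisers of half-trees. -/
def Gplus : Subgroup (PushoutI φ) :=
  Subgroup.normalClosure {c | ∃ i, c ∈ HalfFix φ i}

end Pool.Agent.Helper52.Amalgam
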