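import Mathlib

/-!
# Maximal subgroups from a ping-pong configuration
-/

set_option autoImplicit false

namespace Pool.Agent.Helper52.Amalgam

variable {Γ : Type*} [Group Γ]

/-- A proper subgroup `H` which together with a finite set generates the group is contained in
a maximal subgroup. -/
theorem exists_coatom_of_cofinite (H : Subgroup Γ) (F : Set Γ) (hF : F.Finite) (hH : H ≠ ⊤)
    (hgen : H ⊔ Subgroup.closure F = ⊤) : ∃ M : Subgroup Γ, IsCoatom M := by
  obtain ⟨M, hHM, hM⟩ := zorn_le_nonempty₀ {K : Subgroup Γ | H ≤ K ∧ K ≠ ⊤} (by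
    intro c hc hchain K hK
    refine ⟨sSup c, ⟨(hc hK).1.trans (le_sSup hK), ?_⟩, fun z hz => le_sSup hz⟩
    intro htop
    have hne : c.Nonempty := ⟨K, hK⟩
    have hdir : DirectedOn (· ≤ ·) c := hchain.directedOn
    have h1 : ∃ K' ∈ c, F ⊆ K' := by
      have h2 : F ⊆ ⋃ K' ∈ c, (K' : Set Γ) := by
        intro x _
        have hx : x ∈ sSup c := by rw [htop]; trivial
        rw [Subgroup.mem_sSup_of_directedOn hne hdir] at hx
        obtain ⟨s, hs, hxs⟩ := hx
        exact Set.mem_biUnion hs hxs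
      exact DirectedOn.exists_mem_subset_of_finset_subset_biUnion (f := fun K : Subgroup Γ => (K : Set Γ)) hne
        (by
          intro a ha b hb
          obtain ⟨d, hd, h1, h2⟩ := hdir a ha b hb
          exact ⟨d, hd, h1, h2⟩) (s := hF.toFinset) (by simpa using h2) |>.imp (by
            intro K' h; simpa using h)
    obtain ⟨K', hK', hFK'⟩ := h1
    apply (hc hK').2
    rw [eq_top_iff, ← hgen, sup_le_iff]
    exact ⟨(hc hK').1, (Subgroup.closure_le _).mpr hFK'⟩) H ⟨le_rfl, hH⟩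
  refine ⟨M, hM.prop.2, fun K hK => ?_⟩
  by_contra hne
  have := hM.le_of_ge ⟨hHM.trans hK.le, hne⟩ hK.le
  exact absurd this (not_le_of_gt hK)

/-- The letter `(j, true)` is `x j`, the letter `(j, false)` is `(x j)⁻¹`. -/
def letter {J : Type*} (x : J → Γ) (l : J × Bool) : Γ := cond l.2 (x l.1) (x l.1)⁻¹

lemma pingpong_list {J : Type*} (x : J → Γ) (X : J × Bool → Set Γ)
    (hdisj : ∀ l l', l ≠ l' → Disjoint (X l) (X l'))
    (h1 : ∀ l, (1 : Γ) ∉ X l)
    (hX : ∀ l : J × Bool, ∀ y, y ∉ X (l.1, !l.2) → letter x l * y ∈ X l) :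
    ∀ L : List (J × Bool), FreeGroup.IsReduced L → ∀ l ∈ L.head?,
      (L.map (letter x)).prod ∈ X l := by
  intro L
  induction L with
  | nil => intro _ l hl; simp at hl
  | cons a L ih =>
    intro hL l hl
    simp only [List.head?_cons, Option.mem_some_iff] at hl
    subst hl
    rw [List.map_cons, List.prod_cons]
    apply hX
    cases L with
    | nil => simpa using h1 _
    | cons b L' =>
      rw [FreeGroup.isReduced_cons_cons] at hL
      have hb := ih hL.2 b (by simp)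
      intro hmem
      have hne : b ≠ (a.1, !a.2) := by
        rintro rfl
        have := hL.1 rfl
        simp at this
      exact Set.disjoint_left.mp (hdisj _ _ hne) hb hmem

/-- **Ping-pong.** All elements of the subgroup generated by `x` are trivial or lie in one of the
ping-pong sets. -/
theorem pingpong {J : Type*} (x : J → Γ) (X : J × Bool → Set Γ)
    (hdisj : ∀ l l', l ≠ l' → Disjoint (X l) (X l'))
    (h1 : ∀ l, (1 : Γ) ∉ X l)
    (hX : ∀ l : J × Bool, ∀ y, y ∉ X (l.1, !l.2) → letter x l * y ∈ X l)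
    (w : Γ) (hw : w ∈ Subgroup.closure (Set.range x)) : w = 1 ∨ ∃ l, w ∈ X l := by
  classical
  rw [← FreeGroup.range_lift_eq_closure] at hw
  obtain ⟨v, rfl⟩ := hw
  have hv : FreeGroup.lift x v = (v.toWord.map (letter x)).prod := by
    conv_lhs => rw [← FreeGroup.mk_toWord (x := v)]
    rfl
  rw [hv]
  have hred : FreeGroup.IsReduced v.toWord := FreeGroup.isReduced_toWord
  rcases h : v.toWord with _ | ⟨a, L⟩
  · left; simp
  · right
    rw [h] at hred
    exact ⟨a, pingpong_list x X hdisj h1 hX _ hred a (by simp)⟩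

/-- The abstract construction. `U` plays the role of the set of all elements whose normal form
starts with a letter from `B`; the elements of `FA` fix all edges `x C` with `x ∉ U`, the elements
of `FB` fix all edges `x C` with `x ∈ U`. -/
theorem exists_coatom_of_pingpong (A B : Subgroup Γ) (U : Set Γ)
    (P1 : ∀ a ∈ A, a ∉ B → ∀ x ∈ U, a * x ∉ U)
    (P2 : ∀ b ∈ B, b ∉ A → ∀ x ∉ U, b * x ∈ U)
    (P3 : ∀ a ∈ A, a ∉ U)
    (FA FB : Set Γ) (hFA : ∀ k ∈ FA, ∀ x ∉ U, x⁻¹ * k * x ∈ A ⊓ B)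
    (hFB : ∀ k ∈ FB, ∀ x ∈ U, x⁻¹ * k * x ∈ A ⊓ B)
    {I : Type*} (h : I → Γ) (hh : ∀ i, (h i ∈ A ∧ h i ∉ B) ∨ (h i ∈ B ∧ h i ∉ A))
    (a1 : Γ) (ha1 : a1 ∈ A) (ha1' : a1 ∉ B) (b0 : Γ) (hb0 : b0 ∈ B) (hb0' : b0 ∉ A)
    (b1 : Γ) (hb1 : b1 ∈ B) (hb1' : b1 ∉ A) (hb10 : b1⁻¹ * b0 ∉ A)
    (hgen : Subgroup.closure (FA ∪ FB ∪ Set.range h) = ⊤)
    (α : I × Bool → Γ) (hα : ∀ i, α i ∈ A) (hα' : ∀ i, α i ∉ B)
    (hαd : ∀ i j, i ≠ j → (α i)⁻¹ * α j ∉ B) (hα1 : ∀ i, a1⁻¹ * α i ∉ B) :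
    ∃ M : Subgroup Γ, IsCoatom M := by
  classical
  -- `V a = a U`
  set V : Γ → Set Γ := fun a => {x | a⁻¹ * x ∈ U} with hV
  have mV : ∀ a x, x ∈ V a ↔ a⁻¹ * x ∈ U := fun a x => Iff.rfl
  have hVd : ∀ a ∈ A, ∀ a' ∈ A, a⁻¹ * a' ∉ B → ∀ x, x ∈ V a → x ∉ V a' := by
    intro a ha a' ha' hn x hx hx'
    rw [mV] at hx hx'
    have := P1 (a⁻¹ * a') (A.mul_mem (A.inv_mem ha) ha') hn _ hx'
    apply this
    have e : a⁻¹ * a' * (a'⁻¹ * x) = a⁻¹ * x := by group
    rwa [e]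
  have hU1 : ∀ a ∈ A, a ∉ B → ∀ x ∈ V a, x ∉ U := by
    intro a ha hb x hx hxU
    have := P1 a ha hb _ hx
    apply this
    have e : a * (a⁻¹ * x) = x := by group
    rwa [e]
  -- the conjugated elements
  set h' : I → Γ := fun i => if h i ∈ A then b0 * h i * b0 else h i with hh'
  have hb0i : b0⁻¹ ∈ B := B.inv_mem hb0
  have hb0i' : b0⁻¹ ∉ A := fun h => hb0' (by simpa using A.inv_mem h)
  -- `h' i` and its inverse map the complement of `U` into `U`
  have key1 : ∀ i x, x ∉ U → h' i * x ∈ U := by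
    intro i x hx
    by_cases hi : h i ∈ A
    · have hi' : h i ∉ B := by
        rcases hh i with h1 | h1
        · exact h1.2
        · exact absurd hi h1.2
      have e : h' i = b0 * h i * b0 := by simp [hh', hi]
      rw [e]
      have e2 : b0 * h i * b0 * x = b0 * (h i * (b0 * x)) := by group
      rw [e2]
      exact P2 b0 hb0 hb0' _ (P1 _ hi hi' _ (P2 b0 hb0 hb0' x hx))
    · have e : h' i = h i := by simp [hh', hi]
      rw [e]
      rcases hh i with h1 | h1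
      · exact absurd h1.1 hi
      · exact P2 _ h1.1 hi x hx
  have key2 : ∀ i x, x ∉ U → (h' i)⁻¹ * x ∈ U := by
    intro i x hx
    by_cases hi : h i ∈ A
    · have hi' : h i ∉ B := by
        rcases hh i with h1 | h1
        · exact h1.2
        · exact absurd hi h1.2
      have e : h' i = b0 * h i * b0 := by simp [hh', hi]
      rw [e]
      have e2 : (b0 * h i * b0)⁻¹ * x = b0⁻¹ * ((h i)⁻¹ * (b0⁻¹ * x)) := by group
      rw [e2]
      refine P2 _ hb0i hb0i' _ (P1 _ (A.inv_mem hi) ?_ _ (P2 _ hb0i hb0i' x hx))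
      intro hc
      exact hi' (by simpa using B.inv_mem hc)
    · have e : h' i = h i := by simp [hh', hi]
      rw [e]
      rcases hh i with h1 | h1
      · exact absurd h1.1 hi
      · refine P2 _ (B.inv_mem h1.1) ?_ x hx
        intro hc
        exact hi (by simpa using A.inv_mem hc)
  -- the hyperbolic elements
  set m : I → Γ := fun i => α (i, true) * b0 * (α (i, false))⁻¹ with hm
  have key3 : ∀ i x, x ∉ V (α (i, false)) → m i * x ∈ V (α (i, true)) := by
    intro i x hx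
    rw [mV] at hx ⊢
    have e : (α (i, true))⁻¹ * (m i * x) = b0 * ((α (i, false))⁻¹ * x) := by
      simp only [hm]; group
    rw [e]
    exact P2 b0 hb0 hb0' _ hx
  have key4 : ∀ i x, x ∉ V (α (i, true)) → (m i)⁻¹ * x ∈ V (α (i, false)) := by
    intro i x hx
    rw [mV] at hx ⊢
    have e : (α (i, false))⁻¹ * ((m i)⁻¹ * x) = b0⁻¹ * ((α (i, true))⁻¹ * x) := by
      simp only [hm]; group
    rw [e]
    exact P2 _ hb0i hb0i' _ hx
  set n : I → Γ := fun i => b0 * (m i * h' i * m i) * b0⁻¹ with hn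
  -- `W a = b0 a U`
  set W : Γ → Set Γ := fun a => {x | b0⁻¹ * x ∈ V a} with hW
  have mW : ∀ a x, x ∈ W a ↔ b0⁻¹ * x ∈ V a := fun a x => Iff.rfl
  have key5 : ∀ i x, x ∉ W (α (i, false)) → n i * x ∈ W (α (i, true)) := by
    intro i x hx
    rw [mW] at hx ⊢
    have e : b0⁻¹ * (n i * x) = m i * (h' i * (m i * (b0⁻¹ * x))) := by
      simp only [hn]; group
    rw [e]
    apply key3
    have h1 := hU1 _ (hα _) (hα' _) _ (key3 i _ hx)
    have h2 := key1 i _ h1
    intro h3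
    exact hU1 _ (hα _) (hα' _) _ h3 h2
  have key6 : ∀ i x, x ∉ W (α (i, true)) → (n i)⁻¹ * x ∈ W (α (i, false)) := by
    intro i x hx
    rw [mW] at hx ⊢
    have e : b0⁻¹ * ((n i)⁻¹ * x) = (m i)⁻¹ * ((h' i)⁻¹ * ((m i)⁻¹ * (b0⁻¹ * x))) := by
      simp only [hn]; group
    rw [e]
    apply key4
    have h1 := hU1 _ (hα _) (hα' _) _ (key4 i _ hx)
    have h2 := key2 i _ h1
    intro h3
    exact hU1 _ (hα _) (hα' _) _ h3 h2
  -- all the ping-pong sets
  set y : I ⊕ I → Γ := Sum.elim m n with hy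
  set X : (I ⊕ I) × Bool → Set Γ := fun l =>
    Sum.elim (fun i => V (α (i, l.2))) (fun i => W (α (i, l.2))) l.1 with hX
  have hWU : ∀ i x, x ∈ W (α i) → x ∈ U := by
    intro i x hx
    rw [mW] at hx
    have h1 := hU1 _ (hα i) (hα' i) _ hx
    have := P2 b0 hb0 hb0' _ h1
    have e : b0 * (b0⁻¹ * x) = x := by group
    rwa [e] at this
  have hpp := pingpong y X (by
    rintro ⟨i | i, s⟩ ⟨j | j, t⟩ hne <;> rw [Set.disjoint_left] <;> intro x hx hx'
    · have hij : (i, s) ≠ (j, t) := by rintro ⟨⟩; exact hne rfl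
      exact hVd _ (hα _) _ (hα _) (hαd _ _ hij) x hx hx'
    · exact hU1 _ (hα _) (hα' _) _ hx (hWU _ _ hx')
    · exact hU1 _ (hα _) (hα' _) _ hx' (hWU _ _ hx)
    · have hij : (i, s) ≠ (j, t) := by rintro ⟨⟩; exact hne rfl
      exact hVd _ (hα _) _ (hα _) (hαd _ _ hij) _ hx hx') (by
    rintro ⟨i | i, s⟩ h1
    · have h1' : (α (i, s))⁻¹ * 1 ∈ U := h1
      rw [mul_one] at h1'
      exact P3 _ (A.inv_mem (hα _)) h1'
    · have h1' : b0⁻¹ * 1 ∈ V (α (i, s)) := h1
      have h2 := P2 _ hb0i hb0i' 1 (P3 1 A.one_mem)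
      exact hU1 _ (hα _) (hα' _) _ h1' h2) (by
    rintro ⟨i | i, s⟩ x hx
    · cases s
      · exact key4 i x hx
      · exact key3 i x hx
    · cases s
      · exact key6 i x hx
      · exact key5 i x hx)
  -- the subgroup
  set M0 : Subgroup Γ := Subgroup.closure (Set.range y) with hM0
  set D : Set Γ := (fun k => a1 * k * a1⁻¹) '' FA ∪ (fun k => b1 * k * b1⁻¹) '' FB with hD
  -- the elements of `D` fix all edges `w C`, `w ∈ M0`
  have hDfix : ∀ d ∈ D, ∀ w ∈ M0, w⁻¹ * d * w ∈ A ⊓ B := by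
    rintro d (⟨k, hk, rfl⟩ | ⟨k, hk, rfl⟩) w hw
    · have e : w⁻¹ * (a1 * k * a1⁻¹) * w = (a1⁻¹ * w)⁻¹ * k * (a1⁻¹ * w) := by group
      show w⁻¹ * (a1 * k * a1⁻¹) * w ∈ A ⊓ B
      rw [e]
      apply hFA k hk
      rcases hpp w hw with rfl | ⟨⟨i | i, s⟩, hl⟩
      · rw [mul_one]
        exact P3 _ (A.inv_mem ha1)
      · have hl' : w ∈ V (α (i, s)) := hl
        intro hc
        exact hVd a1 ha1 _ (hα _) (hα1 _) w hc hl'
      · have hwU := hWU _ _ hl
        have hcon := P1 a1⁻¹ (A.inv_mem ha1) (fun hc => ha1' (by simpa using B.inv_mem hc)) w hwU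
        exact hcon
    · have e : w⁻¹ * (b1 * k * b1⁻¹) * w = (b1⁻¹ * w)⁻¹ * k * (b1⁻¹ * w) := by group
      show w⁻¹ * (b1 * k * b1⁻¹) * w ∈ A ⊓ B
      rw [e]
      apply hFB k hk
      have hb1i : b1⁻¹ ∈ B := B.inv_mem hb1
      have hb1i' : b1⁻¹ ∉ A := fun h => hb1' (by simpa using A.inv_mem h)
      rcases hpp w hw with rfl | ⟨⟨i | i, s⟩, hl⟩
      · exact P2 _ hb1i hb1i' 1 (P3 1 A.one_mem)
      · exact P2 _ hb1i hb1i' w (hU1 _ (hα _) (hα' _) _ hl)
      · have hl' : b0⁻¹ * w ∈ V (α (i, s)) := hl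
        have h1 := hU1 _ (hα _) (hα' _) _ hl'
        have h2 := P2 (b1⁻¹ * b0) (B.mul_mem hb1i hb0) hb10 _ h1
        have e : b1⁻¹ * b0 * (b0⁻¹ * w) = b1⁻¹ * w := by group
        rwa [e] at h2
  set M : Subgroup Γ := Subgroup.closure (D ∪ Set.range y) with hM
  -- all elements of `M` have the form `w c` with `w ∈ M0` and `c ∈ C`
  have hO : ∀ x ∈ M, ∀ g, (∃ w ∈ M0, w⁻¹ * g ∈ A ⊓ B) → ∃ w ∈ M0, w⁻¹ * (x * g) ∈ A ⊓ B := by
    intro x hx
    induction hx using Subgroup.closure_induction'' with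
    | one => intro g hg; simpa using hg
    | mem x hx =>
      rintro g ⟨w, hw, hc⟩
      rcases hx with hx | hx
      · refine ⟨w, hw, ?_⟩
        have e : w⁻¹ * (x * g) = (w⁻¹ * x * w) * (w⁻¹ * g) := by group
        rw [e]
        exact (A ⊓ B).mul_mem (hDfix x hx w hw) hc
      · refine ⟨x * w, M0.mul_mem (Subgroup.subset_closure hx) hw, ?_⟩
        have e : (x * w)⁻¹ * (x * g) = w⁻¹ * g := by group
        rwa [e]
    | inv_mem x hx =>
      rintro g ⟨w, hw, hc⟩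
      rcases hx with hx | hx
      · refine ⟨w, hw, ?_⟩
        have e : w⁻¹ * (x⁻¹ * g) = (w⁻¹ * x * w)⁻¹ * (w⁻¹ * g) := by group
        rw [e]
        exact (A ⊓ B).mul_mem ((A ⊓ B).inv_mem (hDfix x hx w hw)) hc
      · refine ⟨x⁻¹ * w, M0.mul_mem (M0.inv_mem (Subgroup.subset_closure hx)) hw, ?_⟩
        have e : (x⁻¹ * w)⁻¹ * (x⁻¹ * g) = w⁻¹ * g := by group
        rwa [e]
    | mul x y _ _ ihx ihy =>
      intro g hg
      rw [mul_assoc]
      exact ihx _ (ihy _ hg)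
  have hMtop : M ≠ ⊤ := by
    intro htop
    have h1 : a1 ∈ M := by rw [htop]; trivial
    obtain ⟨w, hw, hc⟩ := hO a1 h1 1 ⟨1, M0.one_mem, by simp⟩
    rw [mul_one] at hc
    have hwA : w ∈ A := by
      have : w = a1 * (w⁻¹ * a1)⁻¹ := by group
      rw [this]
      exact A.mul_mem ha1 (A.inv_mem hc.1)
    rcases hpp w hw with rfl | ⟨⟨i | i, s⟩, hl⟩
    · simp only [inv_one, one_mul] at hc
      exact ha1' hc.2
    · have h1' : (α (i, s))⁻¹ * w ∈ U := hl
      exact P3 _ (A.mul_mem (A.inv_mem (hα _)) hwA) h1'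
    · exact P3 _ hwA (hWU _ _ hl)
  refine exists_coatom_of_cofinite M {a1, b0, b1} (by simp) hMtop ?_
  set K := M ⊔ Subgroup.closure {a1, b0, b1} with hK
  have ha : a1 ∈ K := (le_sup_right : _ ≤ K) (Subgroup.subset_closure (by simp))
  have hb : b0 ∈ K := (le_sup_right : _ ≤ K) (Subgroup.subset_closure (by simp))
  have hbb : b1 ∈ K := (le_sup_right : _ ≤ K) (Subgroup.subset_closure (by simp))
  have hmK : ∀ i, m i ∈ K := fun i => (le_sup_left : _ ≤ K)
    (Subgroup.subset_closure (Or.inr ⟨.inl i, rfl⟩))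
  have hnK : ∀ i, n i ∈ K := fun i => (le_sup_left : _ ≤ K)
    (Subgroup.subset_closure (Or.inr ⟨.inr i, rfl⟩))
  have hh'K : ∀ i, h' i ∈ K := by
    intro i
    have e : h' i = (m i)⁻¹ * (b0⁻¹ * n i * b0) * (m i)⁻¹ := by simp only [hn]; group
    rw [e]
    exact K.mul_mem (K.mul_mem (K.inv_mem (hmK i)) (K.mul_mem (K.mul_mem (K.inv_mem hb) (hnK i)) hb))
      (K.inv_mem (hmK i))
  have hhK : ∀ i, h i ∈ K := by
    intro i
    by_cases hi : h i ∈ A
    · have e : h i = b0⁻¹ * h' i * b0⁻¹ := by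
        have : h' i = b0 * h i * b0 := by simp [hh', hi]
        rw [this]; group
      rw [e]
      exact K.mul_mem (K.mul_mem (K.inv_mem hb) (hh'K i)) (K.inv_mem hb)
    · have e : h' i = h i := by simp [hh', hi]
      rw [← e]
      exact hh'K i
  rw [eq_top_iff, ← hgen, Subgroup.closure_le]
  rintro x ((hx | hx) | ⟨i, rfl⟩)
  · have h1 : a1 * x * a1⁻¹ ∈ K := (le_sup_left : _ ≤ K)
      (Subgroup.subset_closure (Or.inl (Or.inl ⟨x, hx, rfl⟩)))
    have e : x = a1⁻¹ * (a1 * x * a1⁻¹) * a1 := by group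
    rw [e]
    exact K.mul_mem (K.mul_mem (K.inv_mem ha) h1) ha
  · have h1 : b1 * x * b1⁻¹ ∈ K := (le_sup_left : _ ≤ K)
      (Subgroup.subset_closure (Or.inl (Or.inr ⟨x, hx, rfl⟩)))
    have e : x = b1⁻¹ * (b1 * x * b1⁻¹) * b1 := by group
    rw [e]
    exact K.mul_mem (K.mul_mem (K.inv_mem hbb) h1) hbb
  · exact hhK i

end Pool.Agent.Helper52.Amalgam
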