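import Mathlib
import Pool.Agent.Helper52.Amalgam.PingPong

/-!
# The first letter of the normal form in a pushout of groups
-/

set_option autoImplicit false

open Monoid Monoid.PushoutI Monoid.PushoutI.NormalWord

namespace Pool.Agent.Helper52.Amalgam

variable {ι : Type*} {G : ι → Type*} [∀ i, Group (G i)] {H : Type*} [Group H]
  {φ : ∀ i, H →* G i}

lemma mem_range_of_iff (hφ : ∀ i, Function.Injective (φ i)) {i j : ι} (hij : i ≠ j) (g : G i) :
    of (φ := φ) i g ∈ (of (φ := φ) j).range ↔ g ∈ (φ i).range := by
  constructor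
  · intro h
    have h1 : of (φ := φ) i g ∈ (base φ).range := by
      rw [← inf_of_range_eq_base_range hφ hij]
      exact ⟨⟨g, rfl⟩, h⟩
    obtain ⟨x, hx⟩ := h1
    refine ⟨x, ?_⟩
    apply of_injective hφ i
    rw [of_apply_eq_base, hx]
  · rintro ⟨x, rfl⟩
    refine ⟨φ j x, ?_⟩
    rw [of_apply_eq_base, of_apply_eq_base]

open Classical in
/-- The set of all elements whose normal form starts with a letter from `G j`. -/
noncomputable def startSet (d : Transversal φ) (j : ι) : Set (PushoutI φ) :=
  {g | (g • (NormalWord.empty : NormalWord d)).fstIdx = some j}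

open Classical in
lemma fstIdx_of_smul (d : Transversal φ) {i : ι} (g : G i) (hg : g ∉ (φ i).range)
    (w : NormalWord d) (hw : w.fstIdx ≠ some i) :
    (of (φ := φ) i g • w).fstIdx = some i := by
  rw [← cons_eq_smul g w hw hg]
  simp [CoprodI.Word.fstIdx]

open Classical in
lemma start_mul (d : Transversal φ) {j : ι} (b : G j) (hb : b ∉ (φ j).range)
    (x : PushoutI φ) (hx : x ∉ startSet d j) : of (φ := φ) j b * x ∈ startSet d j := by
  show ((of (φ := φ) j b * x) • (NormalWord.empty : NormalWord d)).fstIdx = some j
  rw [mul_smul]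
  exact fstIdx_of_smul d b hb _ hx

open Classical in
lemma start_mul' (d : Transversal φ) {i j : ι} (hij : i ≠ j) (a : G i) (ha : a ∉ (φ i).range)
    (x : PushoutI φ) (hx : x ∈ startSet d j) : of (φ := φ) i a * x ∉ startSet d j := by
  have hx' : (x • (NormalWord.empty : NormalWord d)).fstIdx = some j := hx
  have h1 : (of (φ := φ) i a * x) ∈ startSet d i := by
    apply start_mul d a ha
    intro h
    have h' : (x • (NormalWord.empty : NormalWord d)).fstIdx = some i := h
    rw [hx'] at h'
    exact hij (Option.some.inj h').symm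
  intro h
  have h1' : ((of (φ := φ) i a * x) • (NormalWord.empty : NormalWord d)).fstIdx = some i := h1
  have h' : ((of (φ := φ) i a * x) • (NormalWord.empty : NormalWord d)).fstIdx = some j := h
  rw [h1'] at h'
  exact hij (Option.some.inj h')

open Classical in
lemma of_not_mem_start (d : Transversal φ) {i j : ι} (hij : i ≠ j) (a : G i) :
    of (φ := φ) i a ∉ startSet d j := by
  by_cases ha : a ∈ (φ i).range
  · obtain ⟨h, rfl⟩ := ha
    intro hc
    have hc' : (of (φ := φ) i (φ i h) • (NormalWord.empty : NormalWord d)).fstIdx = some j := hc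
    rw [of_apply_eq_base, base_smul_def] at hc'
    simp [CoprodI.Word.fstIdx] at hc'
  · intro hc
    have hc' : (of (φ := φ) i a • (NormalWord.empty : NormalWord d)).fstIdx = some j := hc
    rw [fstIdx_of_smul d a ha _ (by simp [CoprodI.Word.fstIdx])] at hc'
    exact hij (Option.some.inj hc')

end Pool.Agent.Helper52.Amalgam
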