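import Mathlib
import Pool.Agent.Helper52.Amalgam.Defs
import Pool.Agent.Helper52.Amalgam.Sets

/-!
# Maximal subgroups of amalgamated free products
-/

set_option autoImplicit false

open Monoid Monoid.PushoutI Cardinal

universe u

namespace Pool.Agent.Helper52.Amalgam

variable {G : Bool → Type u} [∀ i, Group (G i)] {H : Type u} [Group H] {φ : ∀ i, H →* G i}

lemma top_of_gens (K : Subgroup (PushoutI φ)) (hK : ∀ i g, of (φ := φ) i g ∈ K) : K = ⊤ := by
  rw [eq_top_iff]
  intro x _
  induction x using PushoutI.induction_on with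
  | of i g => exact hK i g
  | base h =>
    rw [← of_apply_eq_base φ true h]
    exact hK true _
  | mul x y ihx ihy => exact K.mul_mem (ihx trivial) (ihy trivial)

lemma exists_coatom_of_finite_index (hφ : ∀ i, Function.Injective (φ i))
    (hns : ∀ i, ¬ Function.Surjective (φ i)) {i j : Bool} (hij : i ≠ j)
    (hfin : Finite (G i ⧸ (φ i).range)) : ∃ M : Subgroup (PushoutI φ), IsCoatom M := by
  have hne : ∃ a : G i, a ∉ (φ i).range := by
    by_contra hcon
    push Not at hcon
    exact hns i (fun a => hcon a)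
  obtain ⟨a, ha⟩ := hne
  refine exists_coatom_of_cofinite (of (φ := φ) j).range
    (Set.range fun q : G i ⧸ (φ i).range => of (φ := φ) i q.out) (Set.finite_range _) ?_ ?_
  · intro htop
    have h1 : of (φ := φ) i a ∈ (of (φ := φ) j).range := by rw [htop]; trivial
    rw [mem_range_of_iff hφ hij] at h1
    exact ha h1
  · apply top_of_gens
    intro k g
    set K := (of (φ := φ) j).range ⊔ Subgroup.closure
      (Set.range fun q : G i ⧸ (φ i).range => of (φ := φ) i q.out) with hK
    by_cases hk : k = i
    · subst hk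
      set q : G k ⧸ (φ k).range := QuotientGroup.mk g with hq
      have h1 : q.out⁻¹ * g ∈ (φ k).range := by
        rw [← QuotientGroup.eq, QuotientGroup.out_eq', hq]
      obtain ⟨h, hh⟩ := h1
      have h2 : g = q.out * φ k h := by rw [hh]; group
      rw [h2, map_mul]
      refine K.mul_mem ((le_sup_right : _ ≤ K) (Subgroup.subset_closure ⟨q, rfl⟩))
        ((le_sup_left : _ ≤ K) ⟨φ j h, ?_⟩)
      rw [of_apply_eq_base, of_apply_eq_base]
    · have hkj : k = j := by
        revert hk hij
        cases i <;> cases j <;> cases k <;> simp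
      subst hkj
      exact (le_sup_left : _ ≤ K) ⟨g, rfl⟩

/-! ### The first letter -/

lemma base_mul_not_mem {i : Bool} (h : H) (x : G i) (hx : x ∉ (φ i).range) :
    φ i h * x ∉ (φ i).range := by
  intro hc
  apply hx
  have : x = (φ i h)⁻¹ * (φ i h * x) := by group
  rw [this]
  exact (φ i).range.mul_mem ((φ i).range.inv_mem ⟨h, rfl⟩) hc

lemma startsWith_base_mul {i : Bool} {g : PushoutI φ} (hg : StartsWith φ i g) (h : H) :
    StartsWith φ i (base φ h * g) := by
  cases hg with
  | single _ x hx =>
    rw [← of_apply_eq_base φ i h, ← map_mul]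
    exact StartsWith.single i _ (base_mul_not_mem h x hx)
  | cons _ x hx g hg =>
    rw [← of_apply_eq_base φ i h, ← mul_assoc, ← map_mul]
    exact StartsWith.cons i _ (base_mul_not_mem h x hx) g hg

lemma startSet_disjoint (d : NormalWord.Transversal φ) {i j : Bool} (hij : i ≠ j)
    {g : PushoutI φ} (hi : g ∈ startSet d i) : g ∉ startSet d j := by
  intro hj
  have h1 := hi
  have h2 := hj
  unfold startSet at h1 h2
  rw [Set.mem_ofPred_eq] at h1 h2
  rw [h1] at h2
  exact hij (Option.some.inj h2)

lemma mem_startSet_of (d : NormalWord.Transversal φ) {i : Bool} {g : PushoutI φ}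
    (hg : StartsWith φ i g) : g ∈ startSet d i := by
  induction hg with
  | single i x hx =>
    have := start_mul d x hx 1 (by
      have := of_not_mem_start d (i := !i) (j := i) (by cases i <;> simp) (1 : G (!i))
      rwa [map_one] at this)
    rwa [mul_one] at this
  | cons i x hx g hg ih =>
    apply start_mul d x hx
    intro h
    exact startSet_disjoint d (i := !i) (j := i) (by cases i <;> simp) ih h

lemma base_or_startsWith (g : PushoutI φ) : g ∈ (base φ).range ∨ ∃ i, StartsWith φ i g := by
  have key : ∀ x y : PushoutI φ, (y ∈ (base φ).range ∨ ∃ i, StartsWith φ i y) →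
      (x * y ∈ (base φ).range ∨ ∃ i, StartsWith φ i (x * y)) := by
    intro x
    induction x using PushoutI.induction_on with
    | base h =>
      rintro y (hy | ⟨i, hy⟩)
      · exact Or.inl ((base φ).range.mul_mem ⟨h, rfl⟩ hy)
      · exact Or.inr ⟨i, startsWith_base_mul hy h⟩
    | of i g =>
      rintro y (⟨h, rfl⟩ | ⟨j, hy⟩)
      · rw [← of_apply_eq_base φ i h, ← map_mul]
        by_cases hg : g * φ i h ∈ (φ i).range
        · obtain ⟨h', hh'⟩ := hg
          left
          exact ⟨h', by rw [← hh', of_apply_eq_base]⟩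
        · exact Or.inr ⟨i, StartsWith.single i _ hg⟩
      · by_cases hij : j = i
        · subst hij
          cases hy with
          | single _ x hx =>
            rw [← map_mul]
            by_cases hg : g * x ∈ (φ j).range
            · obtain ⟨h', hh'⟩ := hg
              left
              exact ⟨h', by rw [← hh', of_apply_eq_base]⟩
            · exact Or.inr ⟨j, StartsWith.single j _ hg⟩
          | cons _ x hx y hy =>
            rw [← mul_assoc, ← map_mul]
            by_cases hg : g * x ∈ (φ j).range
            · obtain ⟨h', hh'⟩ := hg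
              right
              refine ⟨!j, ?_⟩
              rw [← hh', of_apply_eq_base]
              exact startsWith_base_mul hy h'
            · exact Or.inr ⟨j, StartsWith.cons j _ hg y hy⟩
        · have hj : j = !i := by
            revert hij
            cases i <;> cases j <;> simp
          subst hj
          by_cases hg : g ∈ (φ i).range
          · obtain ⟨h', rfl⟩ := hg
            right
            refine ⟨!i, ?_⟩
            rw [of_apply_eq_base]
            exact startsWith_base_mul hy h'
          · exact Or.inr ⟨i, StartsWith.cons i g hg y hy⟩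
    | mul x z ihx ihz =>
      intro y hy
      rw [mul_assoc]
      exact ihx _ (ihz _ hy)
  have := key g 1 (Or.inl (base φ).range.one_mem)
  rwa [mul_one] at this

lemma startSet_iff (d : NormalWord.Transversal φ) {i : Bool}
    {g : PushoutI φ} : g ∈ startSet d i ↔ StartsWith φ i g := by
  refine ⟨fun h => ?_, mem_startSet_of d⟩
  rcases base_or_startsWith g with ⟨c, rfl⟩ | ⟨j, hj⟩
  · exfalso
    rw [← of_apply_eq_base φ (!i) c] at h
    exact of_not_mem_start d (by cases i <;> simp) _ h
  · by_cases hij : j = i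
    · rwa [← hij]
    · exact absurd h (startSet_disjoint d hij (mem_startSet_of d hj))

lemma halfFix_conj {i : Bool} {k : PushoutI φ} (hk : k ∈ HalfFix φ i) (h : H) :
    base φ h * k * (base φ h)⁻¹ ∈ HalfFix φ i := by
  refine ⟨(base φ).range.mul_mem ((base φ).range.mul_mem ⟨h, rfl⟩ hk.1)
    ((base φ).range.inv_mem ⟨h, rfl⟩), ?_⟩
  intro g hg
  have e : g⁻¹ * (base φ h * k * (base φ h)⁻¹) * g =
      (base φ h⁻¹ * g)⁻¹ * k * (base φ h⁻¹ * g) := by rw [map_inv]; group
  rw [e]
  exact hk.2 _ (startsWith_base_mul hg _)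

lemma not_mem_of_mk {i : Bool} {q : G i ⧸ (φ i).range} (hq : q ≠ QuotientGroup.mk 1) :
    q.out ∉ (φ i).range := by
  intro hc
  apply hq
  rw [← QuotientGroup.out_eq' q, QuotientGroup.eq, mul_one]
  exact (φ i).range.inv_mem hc

lemma exists_coatom_of_card (hφ : ∀ i, Function.Injective (φ i))
    (hns : ∀ i, ¬ Function.Surjective (φ i))
    {i j : Bool} (hij : i ≠ j) (hinf : ∀ k, Infinite (G k ⧸ (φ k).range))
    (h1 : #(G j ⧸ (φ j).range) ≤ #(G i ⧸ (φ i).range))
    (h2 : #(H ⧸ (Gplus φ).comap (base φ)) ≤ #(G i ⧸ (φ i).range)) :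
    ∃ M : Subgroup (PushoutI φ), IsCoatom M := by
  classical
  have hne : ∀ i, ∃ a : G i, a ∉ (φ i).range := by
    intro i
    by_contra hcon
    push Not at hcon
    exact hns i (fun a => hcon a)
  obtain ⟨a, ha⟩ := hne i
  obtain ⟨b, hb⟩ := hne j
  obtain ⟨d⟩ := NormalWord.transversal_nonempty φ hφ
  have hji : j ≠ i := fun h => hij h.symm
  have := hinf i
  have := hinf j
  -- a second coset of `C` in `B`
  obtain ⟨qb, hqb⟩ := Infinite.exists_notMem_finset
    ({QuotientGroup.mk 1, QuotientGroup.mk b} : Finset (G j ⧸ (φ j).range))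
  simp only [Finset.mem_insert, Finset.mem_singleton, not_or] at hqb
  have hb' : qb.out ∉ (φ j).range := not_mem_of_mk hqb.1
  -- the index type
  let I := (G i ⧸ (φ i).range) ⊕ ((G j ⧸ (φ j).range) ⊕ (H ⧸ (Gplus φ).comap (base φ)))
  have hκ : ℵ₀ ≤ #(G i ⧸ (φ i).range) := Cardinal.aleph0_le_mk _
  have hI : #(I × Bool) ≤
      #{q : G i ⧸ (φ i).range // q ∉ ({QuotientGroup.mk 1, QuotientGroup.mk a} : Finset _)} := by
    have e1 : #{q : G i ⧸ (φ i).range //
        q ∉ ({QuotientGroup.mk 1, QuotientGroup.mk a} : Finset _)} = #(G i ⧸ (φ i).range) :=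
      Cardinal.mk_compl_finset_of_infinite _
    rw [e1]
    have e4 : #I ≤ #(G i ⧸ (φ i).range) := by
      show #((G i ⧸ (φ i).range) ⊕ ((G j ⧸ (φ j).range) ⊕
        (H ⧸ (Gplus φ).comap (base φ)))) ≤ _
      simp only [Cardinal.mk_sum, Cardinal.lift_id]
      exact (add_le_add le_rfl ((add_le_add h1 h2).trans (Cardinal.add_eq_self hκ).le)).trans
        (Cardinal.add_eq_self hκ).le
    rw [Cardinal.mk_congr ((Equiv.prodComm I Bool).trans (Equiv.boolProdEquivSum I)),
      Cardinal.mk_sum, Cardinal.lift_id]
    exact (add_le_add e4 e4).trans (Cardinal.add_eq_self hκ).le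
  obtain ⟨e⟩ := (Cardinal.le_def _ _).mp hI
  have he1 : ∀ x, (e x).1 ≠ QuotientGroup.mk 1 := fun x hx => (e x).2 (by rw [hx]; simp)
  have he2 : ∀ x, (e x).1 ≠ QuotientGroup.mk a := fun x hx => (e x).2 (by rw [hx]; simp)
  have hA : ∀ x : G i, x ∉ (φ i).range → of (φ := φ) i x ∈ (of (φ := φ) i).range ∧
      of (φ := φ) i x ∉ (of (φ := φ) j).range := fun x hx =>
    ⟨⟨x, rfl⟩, fun hc => hx ((mem_range_of_iff hφ hij x).mp hc)⟩
  have hB : ∀ x : G j, x ∉ (φ j).range → of (φ := φ) j x ∈ (of (φ := φ) j).range ∧
      of (φ := φ) j x ∉ (of (φ := φ) i).range := fun x hx =>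
    ⟨⟨x, rfl⟩, fun hc => hx ((mem_range_of_iff hφ hji x).mp hc)⟩
  -- the family of generators
  let pick : (H ⧸ (Gplus φ).comap (base φ)) → PushoutI φ := fun q =>
    base φ q.out * of (φ := φ) i a
  set h : I → PushoutI φ := Sum.elim
    (fun q => if q.out ∈ (φ i).range then of (φ := φ) i a else of (φ := φ) i q.out)
    (Sum.elim (fun q => if q.out ∈ (φ j).range then of (φ := φ) j b else of (φ := φ) j q.out)
      pick) with hh
  set F : Set (PushoutI φ) := HalfFix φ i ∪ HalfFix φ j with hF
  have hgen : Subgroup.closure (F ∪ Set.range h) = ⊤ := by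
    set K := Subgroup.closure (F ∪ Set.range h) with hK
    have hhK : ∀ x, h x ∈ K := fun x => Subgroup.subset_closure (Or.inr ⟨x, rfl⟩)
    have one_out : ∀ k, ((QuotientGroup.mk 1 : G k ⧸ (φ k).range)).out ∈ (φ k).range := by
      intro k
      have h3 : (QuotientGroup.mk (QuotientGroup.mk 1 : G k ⧸ (φ k).range).out :
          G k ⧸ (φ k).range) = QuotientGroup.mk 1 := QuotientGroup.out_eq' _
      rw [QuotientGroup.eq, mul_one] at h3
      simpa using (φ k).range.inv_mem h3
    have haK : of (φ := φ) i a ∈ K := by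
      have := hhK (.inl (QuotientGroup.mk 1))
      simpa only [hh, Sum.elim_inl, if_pos (one_out i)] using this
    have hoi : ∀ q : G i ⧸ (φ i).range, q.out ∉ (φ i).range → of (φ := φ) i q.out ∈ K := by
      intro q hq
      have := hhK (.inl q)
      simpa only [hh, Sum.elim_inl, if_neg hq] using this
    have hoj : ∀ q : G j ⧸ (φ j).range, q.out ∉ (φ j).range → of (φ := φ) j q.out ∈ K := by
      intro q hq
      have := hhK (.inr (.inl q))
      simpa only [hh, Sum.elim_inr, Sum.elim_inl, if_neg hq] using this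
    have hok : ∀ (k : Bool) (q : G k ⧸ (φ k).range), q.out ∉ (φ k).range →
        of (φ := φ) k q.out ∈ K := by
      intro k
      by_cases hk : k = i
      · subst hk; exact hoi
      · have hkj : k = j := by
          revert hk hij
          cases i <;> cases j <;> cases k <;> simp
        subst hkj; exact hoj
    -- every element is `r c`
    have hrc : ∀ x y : PushoutI φ, (∃ r ∈ K, ∃ c : H, y = r * base φ c) →
        ∃ r ∈ K, ∃ c : H, y * x = r * base φ c := by
      intro x
      induction x using PushoutI.induction_on with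
      | base c' =>
        rintro y ⟨r, hr, c, rfl⟩
        exact ⟨r, hr, c * c', by rw [map_mul, mul_assoc]⟩
      | of k g =>
        rintro y ⟨r, hr, c, rfl⟩
        set q : G k ⧸ (φ k).range := QuotientGroup.mk (φ k c * g) with hq
        have h3 : q.out⁻¹ * (φ k c * g) ∈ (φ k).range := by
          rw [← QuotientGroup.eq, QuotientGroup.out_eq', hq]
        obtain ⟨c', hc'⟩ := h3
        have h4 : φ k c * g = q.out * φ k c' := by rw [hc']; group
        have h5 : r * base φ c * of (φ := φ) k g = r * of (φ := φ) k q.out * base φ c' := by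
          rw [← of_apply_eq_base φ k c, ← of_apply_eq_base φ k c', mul_assoc, mul_assoc,
            ← map_mul, ← map_mul, h4]
        by_cases hq2 : q.out ∈ (φ k).range
        · obtain ⟨c'', hc''⟩ := hq2
          refine ⟨r, hr, c'' * c', ?_⟩
          rw [h5, ← hc'', of_apply_eq_base, map_mul, mul_assoc]
        · exact ⟨r * of (φ := φ) k q.out, K.mul_mem hr (hok k q hq2), c', h5⟩
      | mul x z ihx ihz =>
        intro y hy
        rw [← mul_assoc]
        exact ihz _ (ihx _ hy)
    have hrc' : ∀ x : PushoutI φ, ∃ r ∈ K, ∃ c : H, x = r * base φ c := by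
      intro x
      obtain ⟨r, hr, c, hc⟩ := hrc x 1 ⟨1, K.one_mem, 1, by simp⟩
      exact ⟨r, hr, c, by rw [← hc, one_mul]⟩
    -- `Gplus ≤ K`
    have hFiff : ∀ x, (∃ k, x ∈ HalfFix φ k) ↔ x ∈ F := by
      intro x
      constructor
      · rintro ⟨k, hk⟩
        by_cases hki : k = i
        · subst hki; exact Or.inl hk
        · have hkj : k = j := by
            revert hki hij
            cases i <;> cases j <;> cases k <;> simp
          subst hkj; exact Or.inr hk
      · rintro (hk | hk)
        · exact ⟨_, hk⟩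
        · exact ⟨_, hk⟩
    have hGp : Gplus φ ≤ K := by
      unfold Gplus Subgroup.normalClosure
      rw [Subgroup.closure_le]
      intro x hx
      rw [Group.mem_conjugatesOfSet_iff] at hx
      obtain ⟨k, ⟨l, hk⟩, hkx⟩ := hx
      rw [isConj_iff] at hkx
      obtain ⟨g, rfl⟩ := hkx
      obtain ⟨r, hr, c, rfl⟩ := hrc' g
      have e3 : r * base φ c * k * (r * base φ c)⁻¹ =
          r * (base φ c * k * (base φ c)⁻¹) * r⁻¹ := by group
      rw [e3]
      exact K.mul_mem (K.mul_mem hr (Subgroup.subset_closure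
        (Or.inl ((hFiff _).mp ⟨l, halfFix_conj hk c⟩)))) (K.inv_mem hr)
    have hbase : ∀ c : H, base φ c ∈ K := by
      intro c
      set q : H ⧸ (Gplus φ).comap (base φ) := QuotientGroup.mk c with hq
      have h3 : base φ q.out * of (φ := φ) i a ∈ K := hhK (.inr (.inr q))
      have h5 : base φ q.out ∈ K := by
        have e5 : base φ q.out = base φ q.out * of (φ := φ) i a * (of (φ := φ) i a)⁻¹ := by
          group
        rw [e5]
        exact K.mul_mem h3 (K.inv_mem haK)
      have h6 : q.out⁻¹ * c ∈ (Gplus φ).comap (base φ) := by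
        rw [← QuotientGroup.eq, QuotientGroup.out_eq', hq]
      rw [Subgroup.mem_comap, map_mul] at h6
      have e6 : base φ c = base φ q.out * (base φ q.out⁻¹ * base φ c) := by
        rw [map_inv]; group
      rw [e6]
      exact K.mul_mem h5 (hGp h6)
    rw [eq_top_iff]
    intro x _
    obtain ⟨r, hr, c, rfl⟩ := hrc' x
    exact K.mul_mem hr (hbase c)
  have hinfe : ∀ x, x ∈ (base φ).range ↔
      x ∈ (of (φ := φ) i).range ⊓ (of (φ := φ) j).range := by
    intro x
    rw [inf_of_range_eq_base_range hφ hij]
  refine exists_coatom_of_pingpong (of (φ := φ) i).range (of (φ := φ) j).range (startSet d j)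
    ?_ ?_ ?_ (HalfFix φ i) (HalfFix φ j) ?_ ?_ h ?_ (of i a) (hA a ha).1 (hA a ha).2
    (of j b) (hB b hb).1 (hB b hb).2 (of j qb.out) (hB _ hb').1 (hB _ hb').2 ?_ hgen
    (fun x => of (φ := φ) i (e x).1.out) ?_ ?_ ?_ ?_
  · rintro _ ⟨a', rfl⟩ ha' x hx
    refine start_mul' d hij a' ?_ x hx
    rwa [mem_range_of_iff hφ hij] at ha'
  · rintro _ ⟨b', rfl⟩ hb' x hx
    refine start_mul d b' ?_ x hx
    rwa [mem_range_of_iff hφ hji] at hb'
  · rintro _ ⟨a', rfl⟩
    exact of_not_mem_start d hij a'
  · intro k hk x hx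
    rw [← hinfe]
    rcases base_or_startsWith x with hx' | ⟨l, hl⟩
    · exact (base φ).range.mul_mem ((base φ).range.mul_mem ((base φ).range.inv_mem hx') hk.1) hx'
    · by_cases hli : l = i
      · subst hli; exact hk.2 x hl
      · have hlj : l = j := by
          revert hli hij
          cases i <;> cases j <;> cases l <;> simp
        subst hlj
        exact absurd ((startSet_iff d).mpr hl) hx
  · intro k hk x hx
    rw [← hinfe]
    exact hk.2 x ((startSet_iff d).mp hx)
  · rintro (q | q | q)
    · left
      by_cases hq : q.out ∈ (φ i).range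
      · simp only [hh, Sum.elim_inl, if_pos hq]
        exact hA a ha
      · simp only [hh, Sum.elim_inl, if_neg hq]
        exact hA _ hq
    · right
      by_cases hq : q.out ∈ (φ j).range
      · simp only [hh, Sum.elim_inr, Sum.elim_inl, if_pos hq]
        exact hB b hb
      · simp only [hh, Sum.elim_inr, Sum.elim_inl, if_neg hq]
        exact hB _ hq
    · left
      simp only [hh, Sum.elim_inr, pick]
      rw [← of_apply_eq_base φ i, ← map_mul]
      exact hA _ (base_mul_not_mem _ _ ha)
  · rw [← map_inv, ← map_mul, mem_range_of_iff hφ hji]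
    intro hc
    apply hqb.2
    rw [← QuotientGroup.out_eq' qb, QuotientGroup.eq]
    exact hc
  · intro x
    exact ⟨_, rfl⟩
  · intro x hc
    rw [mem_range_of_iff hφ hij] at hc
    exact not_mem_of_mk (he1 x) hc
  · intro x y hxy hc
    rw [← map_inv, ← map_mul, mem_range_of_iff hφ hij] at hc
    apply hxy
    apply e.injective
    apply Subtype.ext
    rw [← QuotientGroup.out_eq' (e x).1, ← QuotientGroup.out_eq' (e y).1, QuotientGroup.eq]
    exact hc
  · intro x hc
    rw [← map_inv, ← map_mul, mem_range_of_iff hφ hij] at hc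
    apply he2 x
    rw [← QuotientGroup.out_eq' (e x).1, eq_comm, QuotientGroup.eq]
    exact hc

/-- Main theorem. -/
theorem exists_coatom (hφ : ∀ i, Function.Injective (φ i))
    (hns : ∀ i, ¬ Function.Surjective (φ i))
    (h : ∃ i, Finite (G i ⧸ (φ i).range) ∨
      #(H ⧸ (Gplus φ).comap (base φ)) ≤ max ℵ₀ #(G i ⧸ (φ i).range)) :
    ∃ M : Subgroup (PushoutI φ), IsCoatom M := by
  by_cases hfin : ∃ i, Finite (G i ⧸ (φ i).range)
  · obtain ⟨i, hi⟩ := hfin
    exact exists_coatom_of_finite_index hφ hns (j := !i) (by cases i <;> simp) hi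
  · push Not at hfin
    have hinf : ∀ k, Infinite (G k ⧸ (φ k).range) := fun k => by simpa using hfin k
    obtain ⟨i, hi⟩ := h
    have hκ : ∀ k, ℵ₀ ≤ #(G k ⧸ (φ k).range) := fun k => Cardinal.aleph0_le_mk _
    -- the larger index
    obtain ⟨i0, hle, hi0⟩ : ∃ i0, #(G (!i0) ⧸ (φ (!i0)).range) ≤ #(G i0 ⧸ (φ i0).range) ∧
        #(G i ⧸ (φ i).range) ≤ #(G i0 ⧸ (φ i0).range) := by
      rcases le_total #(G (!i) ⧸ (φ (!i)).range) #(G i ⧸ (φ i).range) with hle | hle
      · exact ⟨i, hle, le_rfl⟩
      · refine ⟨!i, ?_, hle⟩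
        rw [Bool.not_not]
        exact hle
    have hne : i0 ≠ !i0 := by cases i0 <;> simp
    rcases hi with hi | hi
    · exact absurd hi (by simpa using hfin i)
    · rw [max_eq_right (hκ i)] at hi
      exact exists_coatom_of_card hφ hns hne hinf hle (hi.trans hi0)

lemma card_cosets_le (κ : Cardinal.{u}) (hκ : ℵ₀ ≤ κ) (h : ∀ k, #(G k ⧸ (φ k).range) ≤ κ) :
    #(PushoutI φ ⧸ (base φ).range) ≤ κ := by
  let A := (G true ⧸ (φ true).range) ⊕ (G false ⧸ (φ false).range)
  let v : A → PushoutI φ := Sum.elim (fun q => of (φ := φ) true q.out)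
    (fun q => of (φ := φ) false q.out)
  have h1 : #(List A) ≤ κ := by
    refine (Cardinal.mk_list_le_max A).trans (max_le hκ ?_)
    show #((G true ⧸ (φ true).range) ⊕ (G false ⧸ (φ false).range)) ≤ κ
    rw [Cardinal.mk_sum, Cardinal.lift_id, Cardinal.lift_id]
    exact (add_le_add (h true) (h false)).trans (Cardinal.add_eq_self hκ).le
  have hrc : ∀ x y : PushoutI φ, (∃ (l : List A) (c : H), y = (l.map v).prod * base φ c) →
      ∃ (l : List A) (c : H), y * x = (l.map v).prod * base φ c := by
    intro x
    induction x using PushoutI.induction_on with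
    | base c' =>
      rintro y ⟨l, c, rfl⟩
      exact ⟨l, c * c', by rw [map_mul, mul_assoc]⟩
    | of k g =>
      rintro y ⟨l, c, rfl⟩
      set q : G k ⧸ (φ k).range := QuotientGroup.mk (φ k c * g) with hq
      have h3 : q.out⁻¹ * (φ k c * g) ∈ (φ k).range := by
        rw [← QuotientGroup.eq, QuotientGroup.out_eq', hq]
      obtain ⟨c', hc'⟩ := h3
      have h4 : φ k c * g = q.out * φ k c' := by rw [hc']; group
      have h5 : (l.map v).prod * base φ c * of (φ := φ) k g =
          (l.map v).prod * of (φ := φ) k q.out * base φ c' := by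
        rw [← of_apply_eq_base φ k c, ← of_apply_eq_base φ k c', mul_assoc, mul_assoc,
          ← map_mul, ← map_mul, h4]
      cases k with
      | true =>
        refine ⟨l ++ [.inl q], c', ?_⟩
        rw [h5, List.map_append, List.prod_append]
        simp [v]
      | false =>
        refine ⟨l ++ [.inr q], c', ?_⟩
        rw [h5, List.map_append, List.prod_append]
        simp [v]
    | mul x z ihx ihz =>
      intro y hy
      rw [← mul_assoc]
      exact ihz _ (ihx _ hy)
  refine le_trans (Cardinal.mk_le_of_surjective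
    (f := fun l : List A => (QuotientGroup.mk (l.map v).prod : PushoutI φ ⧸ (base φ).range))
    ?_) h1
  intro q
  induction q using QuotientGroup.induction_on with
  | H x =>
    obtain ⟨l, c, hc⟩ := hrc x 1 ⟨[], 1, by simp⟩
    rw [one_mul] at hc
    refine ⟨l, ?_⟩
    rw [QuotientGroup.eq, hc]
    exact ⟨c, by group⟩

/-- If the subgroup `Gplus` contains the intersection of finitely many conjugates of the
amalgamated subgroup, then its intersection with the amalgamated subgroup has small index. -/
theorem exists_coatom_of_open (hφ : ∀ i, Function.Injective (φ i))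
    (hns : ∀ i, ¬ Function.Surjective (φ i)) (S : Finset (PushoutI φ))
    (hT : ∀ c : H, (∀ s ∈ S, s⁻¹ * base φ c * s ∈ (base φ).range) → base φ c ∈ Gplus φ) :
    ∃ M : Subgroup (PushoutI φ), IsCoatom M := by
  set κ : Cardinal.{u} := max ℵ₀ (max #(G true ⧸ (φ true).range) #(G false ⧸ (φ false).range))
    with hκdef
  have hκ : ℵ₀ ≤ κ := le_max_left _ _
  have h1 : ∀ k, #(G k ⧸ (φ k).range) ≤ κ := by
    intro k
    cases k
    · exact (le_max_right _ _).trans (le_max_right _ _)
    · exact (le_max_left _ _).trans (le_max_right _ _)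
  have h2 : #(H ⧸ (Gplus φ).comap (base φ)) ≤ κ := by
    have h3 : #(H ⧸ (Gplus φ).comap (base φ)) ≤
        #(Fin S.card → PushoutI φ ⧸ (base φ).range) := by
      refine Cardinal.mk_le_of_injective (f := fun (q : H ⧸ (Gplus φ).comap (base φ)) k =>
        (QuotientGroup.mk (base φ q.out * (S.equivFin.symm k : PushoutI φ)) :
          PushoutI φ ⧸ (base φ).range)) ?_
      intro q q' hqq
      rw [← QuotientGroup.out_eq' q, ← QuotientGroup.out_eq' q', QuotientGroup.eq,
        Subgroup.mem_comap]
      apply hT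
      intro s hs
      have h4 := congrFun hqq (S.equivFin ⟨s, hs⟩)
      simp only [Equiv.symm_apply_apply] at h4
      rw [QuotientGroup.eq] at h4
      have e : s⁻¹ * base φ (q.out⁻¹ * q'.out) * s = (base φ q.out * s)⁻¹ * (base φ q'.out * s) := by
        rw [map_mul, map_inv]; group
      rw [e]
      exact h4
    refine h3.trans ?_
    have h5 := card_cosets_le κ hκ h1
    have h6 : #(Fin S.card → PushoutI φ ⧸ (base φ).range) =
        #(PushoutI φ ⧸ (base φ).range) ^ S.card := by
      simp
    rw [h6]
    exact (pow_le_pow_left' h5 _).trans (Cardinal.power_nat_le hκ)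
  rcases le_total #(G false ⧸ (φ false).range) #(G true ⧸ (φ true).range) with h | h
  · refine exists_coatom hφ hns ⟨true, Or.inr (h2.trans ?_)⟩
    rw [hκdef, max_eq_left h]
  · refine exists_coatom hφ hns ⟨false, Or.inr (h2.trans ?_)⟩
    rw [hκdef, max_eq_right h]

end Pool.Agent.Helper52.Amalgam
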